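import Mathlib

/-!
# Majority 3-partitions of eulerian 2-edge-coloured graphs: a counterexample

A gadget with two hubs `a, b` and six further vertices `v_j, w_j` (`j` modulo 3):
red edges `v_j v_{j+1}`, `w_j v_{j+1}`, `w_j a`, `w_j b`, blue edges `w_j w_{j+1}`, `v_j w_{j+1}`,
`v_j a`, `v_j b`.  Every vertex has red degree 3 and blue degree 3 in the gadget, and no majority
3-partition can put `a` and `b` into the same part.  Placing the gadget on each of the six pairs
of four hubs gives an eulerian 2-edge-coloured graph on 40 vertices without majority 3-partition.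
-/

namespace Pool.Agent.Results.MP_ec2f19_co.EulerianCounterexample

/-- `colDeg G c γ X v` is the number `d_{γ,X}(v)` of edges `vx` of `G` that have colour `γ`
and `x ∈ X`.  Colour `true` is red, colour `false` is blue. -/
noncomputable def colDeg {V : Type} (G : SimpleGraph V) (c : Sym2 V → Bool) (γ : Bool)
    (X : Set V) (v : V) : ℕ :=
  Set.ncard {x | x ∈ X ∧ G.Adj v x ∧ c s(v, x) = γ}

/-- The 2-edge-coloured graph `(G, c)` is eulerian: at every vertex the red degree equals the
blue degree. -/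
def IsEulerian {V : Type} (G : SimpleGraph V) (c : Sym2 V → Bool) : Prop :=
  ∀ v : V, colDeg G c true Set.univ v = colDeg G c false Set.univ v

/-- The partition of `V` into the `k` parts `{x | P x = i}`, `i : Fin k`, is a majority
`k`-partition of `(G, c)`: in each colour, every vertex has at most as many edges to its own part
as to the complement of its own part. -/
def IsMajorityPartition {V : Type} {k : ℕ} (G : SimpleGraph V) (c : Sym2 V → Bool)
    (P : V → Fin k) : Prop :=
  ∀ (γ : Bool) (i : Fin k) (v : V), P v = i →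
    colDeg G c γ {x | P x = i} v ≤ colDeg G c γ {x | P x = i}ᶜ v

/-- Vertices: four hubs, and for each of the six pairs of hubs the six gadget vertices
`(g, false, j) = v_j`, `(g, true, j) = w_j`. -/
abbrev W : Type := Fin 4 ⊕ (Fin 6 × Bool × Fin 3)

/-- first hub of the `g`-th pair -/
def hs : Fin 6 → Fin 4 := ![0, 0, 0, 1, 1, 2]

/-- second hub of the `g`-th pair -/
def ht : Fin 6 → Fin 4 := ![1, 2, 3, 2, 3, 3]

/-- red adjacency -/
def redB : W → W → Bool
  | .inl _, .inl _ => false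
  | .inl h, .inr (g, τ, _) => τ && (decide (h = hs g) || decide (h = ht g))
  | .inr (g, τ, _), .inl h => τ && (decide (h = hs g) || decide (h = ht g))
  | .inr (g, τ, j), .inr (g', τ', j') => decide (g = g') &&
      ((!τ && !τ' && decide (j ≠ j')) || (τ && !τ' && decide (j' = j + 1)) ||
        (!τ && τ' && decide (j = j' + 1)))

/-- blue adjacency -/
def blueB : W → W → Bool
  | .inl _, .inl _ => false
  | .inl h, .inr (g, τ, _) => !τ && (decide (h = hs g) || decide (h = ht g))
  | .inr (g, τ, _), .inl h => !τ && (decide (h = hs g) || decide (h = ht g))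
  | .inr (g, τ, j), .inr (g', τ', j') => decide (g = g') &&
      ((τ && τ' && decide (j ≠ j')) || (!τ && τ' && decide (j' = j + 1)) ||
        (τ && !τ' && decide (j = j' + 1)))

/-- adjacency in a given colour -/
def adjB (γ : Bool) (x y : W) : Bool := if γ then redB x y else blueB x y

theorem redB_symm : ∀ x y : W, redB x y = redB y x := by
  rintro (h | ⟨g, τ, j⟩) (h' | ⟨g', τ', j'⟩) <;> simp only [redB]
  revert g g'
  revert τ τ' j j'
  decide

theorem blueB_symm : ∀ x y : W, blueB x y = blueB y x := by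
  rintro (h | ⟨g, τ, j⟩) (h' | ⟨g', τ', j'⟩) <;> simp only [blueB]
  revert g g'
  revert τ τ' j j'
  decide

theorem red_blue : ∀ x y : W, redB x y = true → blueB x y = false := by
  rintro (h | ⟨g, τ, j⟩) (h' | ⟨g', τ', j'⟩)
  · simp [redB]
  · cases τ' <;> simp [redB, blueB]
  · cases τ <;> simp [redB, blueB]
  · simp only [redB, blueB]
    revert g g'
    revert τ τ' j j'
    decide

theorem redB_irrefl : ∀ x : W, redB x x = false := by
  rintro (h | ⟨g, τ, j⟩)
  · rfl
  · simp only [redB]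
    revert g τ j
    decide

theorem blueB_irrefl : ∀ x : W, blueB x x = false := by
  rintro (h | ⟨g, τ, j⟩)
  · rfl
  · simp only [blueB]
    revert g τ j
    decide

/-- the underlying graph -/
def GG : SimpleGraph W where
  Adj x y := redB x y = true ∨ blueB x y = true
  symm := ⟨by
    intro x y h
    rw [redB_symm y x, blueB_symm y x]
    exact h⟩
  loopless := ⟨by
    intro x h
    rw [redB_irrefl, blueB_irrefl] at h
    simp at h⟩

/-- the colouring -/
def cc : Sym2 W → Bool := Sym2.lift ⟨redB, redB_symm⟩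

theorem adj_iff (γ : Bool) (v x : W) :
    (GG.Adj v x ∧ cc s(v, x) = γ) ↔ adjB γ v x = true := by
  have h1 := red_blue v x
  cases γ
  · simp only [GG, cc, Sym2.lift_mk, adjB]
    cases hr : redB v x <;> cases hb : blueB v x <;> simp_all
  · simp only [GG, cc, Sym2.lift_mk, adjB]
    cases hr : redB v x <;> cases hb : blueB v x <;> simp_all

theorem colDeg_eq (γ : Bool) (X : Set W) [DecidablePred (· ∈ X)] (v : W) :
    colDeg GG cc γ X v = (Finset.univ.filter (fun x => adjB γ v x = true ∧ x ∈ X)).card := by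
  unfold colDeg
  rw [← Set.ncard_coe_finset]
  congr 1
  ext x
  simp only [Set.mem_ofPred_eq, Finset.coe_filter, Finset.mem_univ, true_and]
  rw [adj_iff]
  exact and_comm

theorem deg_hub : ∀ (h : Fin 4) (γ : Bool),
    (Finset.univ.filter (fun x : W => adjB γ (.inl h) x = true)).card = 9 := by
  decide

theorem deg_gadget : ∀ (g : Fin 6) (τ : Bool) (j : Fin 3) (γ : Bool),
    (Finset.univ.filter (fun x : W => adjB γ (.inr (g, τ, j)) x = true)).card = 3 := by
  decide

theorem eulerian : IsEulerian GG cc := by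
  intro v
  rw [colDeg_eq, colDeg_eq]
  simp only [Set.mem_univ, and_true]
  rcases v with h | ⟨g, τ, j⟩
  · rw [deg_hub, deg_hub]
  · rw [deg_gadget, deg_gadget]

/-- At a gadget vertex, two distinct neighbours of the same colour cannot both lie in its part. -/
theorem key {P : W → Fin 3} (hP : IsMajorityPartition GG cc P) (g : Fin 6) (τ : Bool) (j : Fin 3)
    (γ : Bool) (x y : W) (hx : adjB γ (.inr (g, τ, j)) x = true)
    (hy : adjB γ (.inr (g, τ, j)) y = true) (hxy : x ≠ y) :
    ¬ (P x = P (.inr (g, τ, j)) ∧ P y = P (.inr (g, τ, j))) := by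
  rintro ⟨h1, h2⟩
  have h := hP γ (P (.inr (g, τ, j))) (.inr (g, τ, j)) rfl
  classical
  rw [colDeg_eq, colDeg_eq] at h
  set i := P (.inr (g, τ, j)) with hi
  set v : W := .inr (g, τ, j) with hv
  have h3 : (Finset.univ.filter (fun x : W => adjB γ v x = true)).card = 3 :=
    deg_gadget g τ j γ
  have hsplit : (Finset.univ.filter (fun x : W => adjB γ v x = true ∧ x ∈ {x | P x = i})).card
      + (Finset.univ.filter (fun x : W => adjB γ v x = true ∧ x ∈ ({x | P x = i} : Set W)ᶜ)).card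
      = 3 := by
    refine Eq.trans ?_ h3
    rw [← Finset.filter_filter, ← Finset.filter_filter]
    exact Finset.card_filter_add_card_filter_not _
  have h4 : 2 ≤ (Finset.univ.filter
      (fun x : W => adjB γ v x = true ∧ x ∈ {x | P x = i})).card := by
    rw [← Finset.card_pair hxy]
    apply Finset.card_le_card
    intro z hz
    simp only [Finset.mem_insert, Finset.mem_singleton] at hz
    simp only [Finset.mem_filter, Finset.mem_univ, true_and, Set.mem_ofPred_eq]
    rcases hz with rfl | rfl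
    · exact ⟨hx, h1⟩
    · exact ⟨hy, h2⟩
  omega

/-- The gadget constraints, with `i` the part of both hubs, `x_j` the part of `v_j` and `y_j` the
part of `w_j`. -/
def chk (i x0 x1 x2 y0 y1 y2 : Fin 3) : Prop :=
    i ≠ x0 ∧ i ≠ x1 ∧ i ≠ x2 ∧ i ≠ y0 ∧ i ≠ y1 ∧ i ≠ y2 ∧
    ¬ (x1 = x0 ∧ x2 = x0) ∧ ¬ (x1 = x0 ∧ y2 = x0) ∧ ¬ (x2 = x0 ∧ y2 = x0) ∧
    ¬ (x2 = x1 ∧ y0 = x1) ∧ ¬ (x0 = x1 ∧ y0 = x1) ∧
    ¬ (x0 = x2 ∧ y1 = x2) ∧ ¬ (x1 = x2 ∧ y1 = x2) ∧
    ¬ (y1 = y0 ∧ y2 = y0) ∧ ¬ (y1 = y0 ∧ x2 = y0) ∧ ¬ (y2 = y0 ∧ x2 = y0) ∧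
    ¬ (y2 = y1 ∧ x0 = y1) ∧ ¬ (y0 = y1 ∧ x0 = y1) ∧
    ¬ (y0 = y2 ∧ x1 = y2) ∧ ¬ (y1 = y2 ∧ x1 = y2)

instance (i x0 x1 x2 y0 y1 y2 : Fin 3) : Decidable (chk i x0 x1 x2 y0 y1 y2) := by
  unfold chk; infer_instance

/-- The finite check inside one gadget. -/
theorem finite_check : ∀ i x0 x1 x2 y0 y1 y2 : Fin 3, ¬ chk i x0 x1 x2 y0 y1 y2 := by
  decide

theorem hs_ne_ht : ∀ g : Fin 6, hs g ≠ ht g := by decide

/-- The two hubs of a gadget lie in different parts. -/
theorem hubs_ne {P : W → Fin 3} (hP : IsMajorityPartition GG cc P) (g : Fin 6) :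
    P (.inl (hs g)) ≠ P (.inl (ht g)) := by
  intro hab
  have hne : (.inl (hs g) : W) ≠ .inl (ht g) := by
    intro h
    exact hs_ne_ht g (Sum.inl.inj h)
  have hv : ∀ j : Fin 3, P (.inl (hs g)) ≠ P (.inr (g, false, j)) := by
    intro j h
    refine key hP g false j false (.inl (hs g)) (.inl (ht g)) ?_ ?_ hne ⟨h, hab ▸ h⟩
    · simp [adjB, blueB]
    · simp [adjB, blueB]
  have hw : ∀ j : Fin 3, P (.inl (hs g)) ≠ P (.inr (g, true, j)) := by
    intro j h
    refine key hP g true j true (.inl (hs g)) (.inl (ht g)) ?_ ?_ hne ⟨h, hab ▸ h⟩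
    · simp [adjB, redB]
    · simp [adjB, redB]
  have k := fun (τ : Bool) (j : Fin 3) (γ : Bool) (τ1 : Bool) (j1 : Fin 3) (τ2 : Bool)
    (j2 : Fin 3) => key hP g τ j γ (.inr (g, τ1, j1)) (.inr (g, τ2, j2))
  refine finite_check (P (.inl (hs g))) (P (.inr (g, false, 0))) (P (.inr (g, false, 1)))
    (P (.inr (g, false, 2))) (P (.inr (g, true, 0))) (P (.inr (g, true, 1)))
    (P (.inr (g, true, 2))) ⟨hv 0, hv 1, hv 2, hw 0, hw 1, hw 2,
    k false 0 true false 1 false 2 ?_ ?_ ?_, k false 0 true false 1 true 2 ?_ ?_ ?_,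
    k false 0 true false 2 true 2 ?_ ?_ ?_,
    k false 1 true false 2 true 0 ?_ ?_ ?_, k false 1 true false 0 true 0 ?_ ?_ ?_,
    k false 2 true false 0 true 1 ?_ ?_ ?_, k false 2 true false 1 true 1 ?_ ?_ ?_,
    k true 0 false true 1 true 2 ?_ ?_ ?_, k true 0 false true 1 false 2 ?_ ?_ ?_,
    k true 0 false true 2 false 2 ?_ ?_ ?_,
    k true 1 false true 2 false 0 ?_ ?_ ?_, k true 1 false true 0 false 0 ?_ ?_ ?_,
    k true 2 false true 0 false 1 ?_ ?_ ?_, k true 2 false true 1 false 1 ?_ ?_ ?_⟩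
  all_goals simp [adjB, redB, blueB]

theorem no_partition : ¬ ∃ P : W → Fin 3, IsMajorityPartition GG cc P := by
  rintro ⟨P, hP⟩
  have h01 := hubs_ne hP 0
  have h02 := hubs_ne hP 1
  have h03 := hubs_ne hP 2
  have h12 := hubs_ne hP 3
  have h13 := hubs_ne hP 4
  have h23 := hubs_ne hP 5
  have e0 : hs 0 = 0 := rfl
  have e1 : hs 1 = 0 := rfl
  have e2 : hs 2 = 0 := rfl
  have e3 : hs 3 = 1 := rfl
  have e4 : hs 4 = 1 := rfl
  have e5 : hs 5 = 2 := rfl
  have f0 : ht 0 = 1 := rfl
  have f1 : ht 1 = 2 := rfl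
  have f2 : ht 2 = 3 := rfl
  have f3 : ht 3 = 2 := rfl
  have f4 : ht 4 = 3 := rfl
  have f5 : ht 5 = 3 := rfl
  rw [e0, f0] at h01
  rw [e1, f1] at h02
  rw [e2, f2] at h03
  rw [e3, f3] at h12
  rw [e4, f4] at h13
  rw [e5, f5] at h23
  have : ∀ a b c d : Fin 3, ¬ (a ≠ b ∧ a ≠ c ∧ a ≠ d ∧ b ≠ c ∧ b ≠ d ∧ c ≠ d) := by
    decide
  exact this _ _ _ _ ⟨h01, h02, h03, h12, h13, h23⟩

/-- There is an eulerian 2-edge-coloured finite simple graph (on 40 vertices) that has no majority
3-partition. -/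
theorem result : ∃ (V : Type) (_ : Fintype V) (G : SimpleGraph V) (c : Sym2 V → Bool),
    Fintype.card V = 40 ∧ IsEulerian G c ∧ ¬ ∃ P : V → Fin 3, IsMajorityPartition G c P := by
  refine ⟨W, inferInstance, GG, cc, ?_, eulerian, no_partition⟩
  simp [W]

end Pool.Agent.Results.MP_ec2f19_co.EulerianCounterexample
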